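import Pool.Agent.Y191.DimGe

/-!
# Nonvanishing for pairs over bases of Calabi-Yau type with fibres given by moving arrangements

Let `(X, Δ)` be a projective log canonical pair (or any pair of a normal projective variety `X` and an
effective `ℚ`-divisor `Δ`), `X ⇢ P^v` a rational map whose image `Y`, any subvariety of `P^v`, has
dimension `p`. Suppose:

* (the base) `ℓ i = 0`, `i < q`, are hyperplanes in general position which do not contain `Y`, such
  that the points `ℓ i` impose independent conditions on the forms of degree `d`, with weights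
  `wt i ≥ 0` whose sum is at least `(p + 1) γ`, `γ = (v - p + d).choose (v - p)`; if `e i` is the
  multiplicity of the hyperplane `ℓ i = 0` at the prime divisor `P` of `X` (for the divisors without
  fixed component which the map defines) then
  `min (#{i | e i ≠ 0}) γ ≤ γ Δ_P + ∑ i, (1 - wt i) e i`. (The sum of the weights may be equal to
  `(p + 1) γ`; for instance, if `Y = P^p`, `γ = 1`, the base with the divisor `∑ wt i (ℓ i = 0)` may be
  a log Calabi-Yau pair. The conditions are empty if `p = 0`.)
* (the fibres) there is a correspondence between `X` and a relative product of projective spaces: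
  a variety `X'` with a generically finite map `X' ⇢ X` (any finite extension `K'` of the function
  field `K`, ramified anywhere) and a generically finite map over `Y` of `X'` to
  `Y' × P^{r_1} × ... × P^{r_c}`, `r_j ≥ 1`, `Y'` finite over `Y`, and in each `P^{r_j}` there are
  any hyperplanes `A j i = 0` which move with the point of `Y'`, with weights `w j i` in `[0, 1]`
  such that the arrangement is log canonical: the sum of the weights of hyperplanes with a common
  point is at most the codimension of their intersection. If `Q` is a place of `K'` over a prime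
  divisor `P` of `X` which dominates `Y`, with ramification index `ε`, and `e j i` are the
  multiplicities of the hyperplanes at `Q`, not all zero, then `ε (1 - Δ_P)` is at most
  `∑ (mx_j - ∑ w j i e j i)`, where `mx_j` is the greatest sum of `r_j + 1` of the `e j i` whose
  hyperplanes have no common point (`ε (1 - Δ_P) ≤ 1`, if all `e j i` are zero); and if `Q` is a
  place of `K'` over a prime divisor of `P^{r_1} × ... × P^{r_c}` over `Y`, with ramification index
  `ρ`, and over the place `P` of `K`, with ramification index `ε`, then `ρ - ε α ≤ ∑ w j i e j i`,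
  where `α` is the log discrepancy of `(X, Δ)` along `P`.

Then nonvanishing holds for `(X, Δ)`: if `K_X + Δ` is pseudo-effective, for instance nef, then some
positive multiple of `K_X + Δ` has a nonzero section, and the Kodaira dimension of `K_X + Δ` is at
least the sum of the `r_j` with `∑ i, w j i > r_j + 1`. More precisely, `K_X + Δ` is pseudo-effective
if and only if `∑ i, w j i ≥ r_j + 1` for all `j`.

The case `Δ = 0` (and `X` with canonical singularities) is `LogCanonicalArrangements` of helper191
(for `MP_23b606_ag`). Weak abundance, for weights on the base whose sum is greater than `(p + 1) γ`,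
is `LogCanonicalArrangementPairs` (for `MP_2c56d9_ag`).

The language and the definitions of `Pool.Agent.Y172` are used: `X` is given by the homogeneous
coordinates `y` of its generic point, with values in the function field `K` of `X`; the prime divisors
of `X` are places `P` of `K`, `P.ord` is the order along `P`; `kodairaDim` is the literal definition
of the Kodaira dimension by means of the dimensions of the spaces of sections of `m (K_X + Δ)`.
-/

set_option autoImplicit false

open FF Pool.Agent.W602.GT Pool.Agent.Y172 Pool.Agent.Y191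

namespace Pool.Agent.Results.MP_bc213e_ag.CalabiYauBasePairs

section

variable {K : Type} [Field K] [Algebra ℂ K] {N : ℕ}

/-- `(X, Δ)` is a projective pair of dimension `n`: `X` is normal, with generic point `y`, and `Δ` is
an effective `ℚ`-divisor. -/
def IsPair (y : Fin (N + 1) → K) (n : ℕ) (Δ : Place ℂ K → ℚ) : Prop :=
  NormalModel y ∧ Algebra.trdeg ℂ K = n ∧ Effective y Δ

/-- The `b j` are the coordinates of a rational map whose image has dimension `p` and is not
contained in one of the hyperplanes `ℓ i = 0`. -/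
def IsMap {v q : ℕ} (ℓ : Fin q → Fin (v + 1) → ℂ) (b : Fin (v + 1) → K) (p : ℕ) : Prop :=
  (∀ i, lf (ℓ i) b ≠ 0) ∧ (∃ j, b j ≠ 0) ∧ Algebra.trdeg ℂ (RF ℂ b) = p

/-- There is a finite extension `K'` of `K`, and the `u ⟨j, k⟩` are the affine coordinates of a
generically finite map, over the variety with the function field `L`, of a variety with the function
field `K'` to a product of projective spaces of dimensions `r j ≥ 1`; `A j i` are the coefficients of
hyperplanes, algebraic over `L`, with weights `w j i` in `[0, 1]` such that the arrangement is log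
canonical (`LcArr`). The pull back of `K_X + Δ` to `K'` is compared with the pull back of the
canonical divisor of the relative product plus `∑ w j i (A j i = 0)` at the places over the prime
divisors of `X` which are trivial on `L` (`LcHor`) and at the places over the prime divisors of the
product (`Cor`). -/
def Fibres (y : Fin (N + 1) → K) (n : ℕ) (Δ : Place ℂ K → ℚ) (L : IntermediateField ℂ K) {c : ℕ}
    (r s : Fin c → ℕ) (w : ∀ j, Fin (s j) → ℚ) : Prop :=
  (∀ j, 1 ≤ r j ∧ ∀ i, 0 ≤ w j i ∧ w j i ≤ 1) ∧
  ∃ (K' : Type) (_ : Field K') (_ : Algebra ℂ K') (_ : Algebra K K') (_ : IsScalarTower ℂ K K')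
    (_ : FiniteDimensional K K') (A : ∀ j, Fin (s j) → Fin (r j + 1) → K')
    (u : (Σ j, Fin (r j)) → K'),
    LcArr (upF K' L) A w ∧ IsTranscendenceBasis (upF K' L) u ∧
    LcHor L A u w {P | IsPrimeDivisor y P} (fun P => (Δ P : ℝ)) ∧
    Cor y n Δ (upF K' L) A u w

/-- the sum of the dimensions `r j` for which the sum of the weights is greater than `r j + 1` -/
def big {c : ℕ} (r s : Fin c → ℕ) (w : ∀ j, Fin (s j) → ℚ) : ℕ :=
  ∑ j, if (r j + 1 : ℚ) < ∑ i, w j i then r j else 0

/-- `K_X + Δ` is pseudo-effective, tested with all effective divisors `A`: for some effective divisor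
`A` the divisor `m (K_X + Δ) + A` has a section `≠ 0` for arbitrarily large `m`. -/
def PseudoEffective (y : Fin (N + 1) → K) (n : ℕ) (Δ : Place ℂ K → ℚ) : Prop :=
  ∃ A, Effective y A ∧
    ∀ m₁ : ℕ, ∃ m : ℕ, m₁ ≤ m ∧ ∃ s, IsSection y n m (m • Δ + A) s ∧ s ≠ 0

/-- Some positive multiple of `K_X + Δ` has a nonzero section. -/
def Effective' (y : Fin (N + 1) → K) (n : ℕ) (Δ : Place ℂ K → ℚ) : Prop :=
  ∃ m : ℕ, 1 ≤ m ∧ Integral y (m • Δ) ∧ ∃ ω, IsSection y n m (m • Δ) ω ∧ ω ≠ 0

end

theorem exists_idx {c : ℕ} (r q : Fin c → ℕ) (w : ∀ j, Fin (q j) → ℚ) :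
    ∃ κ : Fin (big r q w) → Σ j, Fin (r j), Function.Injective κ ∧
      ∀ i, (r (κ i).1 + 1 : ℚ) < ∑ i', w (κ i).1 i' := by
  classical
  have h1 : Fintype.card {x : Σ j, Fin (r j) // (r x.1 + 1 : ℚ) < ∑ i, w x.1 i} = big r q w := by
    rw [Fintype.card_subtype, Finset.card_filter, Fintype.sum_sigma]
    refine Finset.sum_congr rfl fun j _ => ?_
    change ∑ _k : Fin (r j), (if (r j + 1 : ℚ) < ∑ i, w j i then 1 else 0) = _
    rw [Finset.sum_const, Finset.card_univ, Fintype.card_fin, smul_eq_mul, mul_ite, mul_one,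
      mul_zero]
  let φ := Fintype.equivFinOfCardEq h1
  exact ⟨fun i => (φ.symm i : Σ j, Fin (r j)), fun a b hab => φ.symm.injective (Subtype.ext hab),
    fun i => (φ.symm i).2⟩

/-- **Nonvanishing.** Let `(X, Δ)` be a projective pair of dimension `p + ∑ j, r j`, `b` the
coordinates of a rational map `X ⇢ P^v` whose image has dimension `p`, and let the fibres be as in
`Fibres`. Let `ℓ i = 0` be hyperplanes in general position which do not contain the image and impose
independent conditions on the forms of degree `d`, with weights `wt i ≥ 0` whose sum is at least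
`(p + 1) * γ`, where `γ = (v - p + d).choose (v - p)`, and let the multiplicities `e i` satisfy
`min (#{i | e i ≠ 0}) γ ≤ γ Δ_P + ∑ i, (1 - wt i) e i` at all prime divisors `P` of `X`. Then

(1) if `K_X + Δ` is pseudo-effective (for instance nef) then some positive multiple of `K_X + Δ` has
a nonzero section, and `κ(K_X + Δ)` is at least the sum of the `r j` with `r j + 1 < ∑ i, w j i`;

(2) `K_X + Δ` is pseudo-effective if and only if `r j + 1 ≤ ∑ i, w j i` for all `j`. -/
theorem result {v q : ℕ} :
    ∀ d p : ℕ, 0 < d → ∀ ℓ : Fin q → Fin (v + 1) → ℂ, Independent d ℓ → GeneralPosition ℓ →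
      v + 1 ≤ q → ∀ (K : Type) [Field K] [Algebra ℂ K] (N c : ℕ) (r s : Fin c → ℕ)
      (y : Fin (N + 1) → K) (Δ : Place ℂ K → ℚ), IsPair y (p + ∑ j, r j) Δ →
      ∀ b : Fin (v + 1) → K, IsMap ℓ b p → ∀ wt : Fin q → ℚ, (∀ i, 0 ≤ wt i) →
      (((p + 1) * (v - p + d).choose (v - p) : ℕ) : ℚ) ≤ ∑ i, wt i →
      (∀ P, IsPrimeDivisor y P → ∀ (c : ℤ) (e : Fin q → ℕ), OrdData P ℓ b c e →
        ((min (Finset.univ.filter fun i => e i ≠ 0).card ((v - p + d).choose (v - p)) : ℕ) : ℚ) ≤
          ((v - p + d).choose (v - p) : ℕ) * Δ P + ∑ i, (1 - wt i) * e i) →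
      ∀ w : ∀ j, Fin (s j) → ℚ, Fibres y (p + ∑ j, r j) Δ (RF ℂ b) r s w →
      (PseudoEffective y (p + ∑ j, r j) Δ → Effective' y (p + ∑ j, r j) Δ ∧
        ((big r s w : ℕ) : WithBot ℕ) ≤ kodairaDim y (p + ∑ j, r j) Δ) ∧
      (PseudoEffective y (p + ∑ j, r j) Δ ↔ ∀ j, (r j + 1 : ℚ) ≤ ∑ i, w j i) := by
  rintro d p hd ℓ hI hg hq K _ _ N c r s y Δ hy b ⟨hl, hb, htr⟩ wt hwt hlt hmult w
    ⟨hw, K', _, _, _, _, _, A, u, hA, hu, hH, hC⟩
  have h00 : Effective y (0 : Place ℂ K → ℚ) := ⟨fun _ _ => le_rfl, by simp⟩
  have hneg : (∃ j, ∑ i, w j i < (r j + 1 : ℚ)) → ¬ PseudoEffective y (p + ∑ j, r j) Δ := by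
    rintro hj ⟨A', hA', hps⟩
    obtain ⟨m0, hm0⟩ := (lc_sec hy.1 hy.2.1 hy.2.2 hA.1 hu (fun j => (hw j).1)
      (fun j i => ((hw j).2 i).1) (fun j i => ((hw j).2 i).2) hC).1 hj A' hA'
    obtain ⟨m, hm, ω, hω, hne⟩ := hps m0
    exact hne (hm0 m hm ω hω)
  have hpos : (∀ j, (r j + 1 : ℚ) ≤ ∑ i, w j i) →
      ((big r s w : ℕ) : WithBot ℕ) ≤ kodairaDim y (p + ∑ j, r j) Δ := by
    intro hws
    obtain ⟨κ, hκ, hκs⟩ := exists_idx r s w
    refine lc_nv hy.1 hy.2.1 hy.2.2 hA.1 hu (fun j => (hw j).1)
      (fun j i => ((hw j).2 i).1) (fun j i => ((hw j).2 i).2) hC hws (by omega) ?_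
    refine (lc_small (δ := fun P => (Δ P : ℝ)) (X := {P | IsPrimeDivisor y P}) hd hI hg hq hl hb
      htr hy.2.1 hwt hlt (fun P hP => by exact_mod_cast hy.2.2.1 P hP)
      (fun P hP _ c e ho => ?_) hA finSigmaFinEquiv hu (fun j i => ((hw j).2 i).1)
      hws hκ hκs hH).1
    have h3 := hmult P hP c e ho
    have h4 := (Rat.cast_le (K := ℝ)).2 h3
    push_cast at h4 ⊢
    exact h4
  have heff : (∀ j, (r j + 1 : ℚ) ≤ ∑ i, w j i) → Effective' y (p + ∑ j, r j) Δ := by
    intro hws
    by_contra hcon
    unfold Effective' at hcon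
    push Not at hcon
    have h5 : kodairaDim y (p + ∑ j, r j) Δ = ⊥ := by
      unfold kodairaDim
      rw [if_pos]
      intro m hm hi
      unfold h0
      have : {ω | IsSection y (p + ∑ j, r j) m (m • Δ) ω} ⊆ {0} := fun ω hω => by
        by_contra hne
        exact hne (hcon m hm hi ω hω)
      rw [Submodule.span_eq_bot.2 fun ω hω => this hω]
      exact finrank_bot ℂ _
    have h6 := hpos hws
    rw [h5] at h6
    exact absurd (le_bot_iff.1 h6) WithBot.coe_ne_bot
  have hws : PseudoEffective y (p + ∑ j, r j) Δ → ∀ j, (r j + 1 : ℚ) ≤ ∑ i, w j i := by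
    intro hps
    by_contra hcon
    push Not at hcon
    exact hneg hcon hps
  refine ⟨fun hps => ⟨heff (hws hps), hpos (hws hps)⟩, hws, fun h => ?_⟩
  obtain ⟨m, hm, -, ω, hω, hne⟩ := heff h
  refine ⟨0, h00, fun m₁ => ⟨(m₁ + 1) * m, ?_, fun G => ω G ^ (m₁ + 1), ?_, ?_⟩⟩
  · exact (Nat.le_succ _).trans (Nat.le_mul_of_pos_right _ hm)
  · have h1 := hω.pow (m₁ + 1)
    rw [smul_smul] at h1
    rw [add_zero]
    exact h1
  · intro h0
    refine hne (funext fun G => ?_)
    have h1 := congrFun h0 G
    exact (pow_eq_zero_iff (Nat.succ_ne_zero _)).1 h1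

end Pool.Agent.Results.MP_bc213e_ag.CalabiYauBasePairs
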