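import Pool.Agent.Y172.R10

/-!
# Nonvanishing for log canonical pairs with a linear system with high multiplicities

Let `(X, Δ)` be a projective log canonical pair of dimension `n` such that `K_X + Δ` is
pseudo-effective, for instance nef, `Z → X` a finite cover with function field `L`, and `V` a linear
system of dimension `v` on `Z`, spanned by nonzero members `φ i`, with an image `W` of dimension
`d = v - k`. Let `c` be the number of the components of the configuration of the `φ i` (the largest
number such that `V` is a direct sum of `c` nonzero subspaces which together contain all `φ i`), and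
let the function field of `Z` be generated by functions `t j` and functions which are algebraic over
the function field of `W`. Let `R = v + 3 - c` (or `R = v + 1` if `c = 1` and there are `v + 3`
different members) and `2 s > R (k + 1) (k + 2)`. Suppose, for the prime divisors `P` of `X` which are
not in the base locus of `m (K_X + Δ + η A)` for all `m ≥ 1` and all small `η ≥ 0`, and all prime
divisors `Q` of `Z` over `P`, with ramification index `e`:

* if the `φ i` all have the same order at `Q` then `e (1 - Δ P) ≤ 1`;
* otherwise, there are two `φ i` in the same summand of `V` whose orders at `Q` differ by at least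
  `s e (1 - Δ P)`; and if `Δ P = 1` then the minimum of the orders at `Q` is attained in all summands;
* if `Q` dominates `W` and some `t j` has a zero or pole at `Q` then `Δ P = 1`.

Then some positive multiple of `K_X + Δ` has a nonzero section; more precisely the Kodaira dimension
and the numerical dimension of `K_X + Δ` are equal, and at least `d`.

For klt pairs this is `HighMultiplicityAbundance` of helper172 (for another problem); here `Δ` may
have components with coefficient `1`, `X` may have arbitrary log canonical singularities, and the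
functions `t j` may have zeros and poles on the reduced part of `Δ`, so that the fibres of `Z` over
`W` may be arbitrary very affine varieties.

The language and the definitions of `Pool.Agent.Y172` are used: `X` is given by the homogeneous
coordinates `y` of its generic point, with values in the function field `K` of `X`; the prime divisors
of `X` are places `P` of `K`, `P.ord` is the order along `P`; `kodairaDim` and `numericalDim` are the
literal definitions of the Kodaira and of the numerical dimension by means of the dimensions of the
spaces of sections of `m (K_X + Δ)` and of `m (K_X + Δ) + A`.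
-/

set_option autoImplicit false

open FF Pool.Agent.W602.GT Pool.Agent.W603.LV Pool.Agent.W619.PQ Pool.Agent.Y172

namespace Pool.Agent.Results.MP_bc213e_ag.HighMultiplicityLogCanonical

/-- `K_X + D` is pseudo-effective, tested with the effective divisor `A`: the divisor
`m (K_X + D) + A` has a section `≠ 0` for arbitrarily large `m`. -/
def PseudoEffective {K : Type} [Field K] [Algebra ℂ K] {N : ℕ} (y : Fin (N + 1) → K) (n : ℕ)
    (D A : Place ℂ K → ℚ) : Prop :=
  ∀ m₁ : ℕ, ∃ m : ℕ, m₁ ≤ m ∧ ∃ s, IsSection y n m (m • D + A) s ∧ s ≠ 0

/-- The field generated by the quotients of the members of `V`: the function field of the image of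
the rational map given by the linear system `V`. -/
noncomputable def quotientField {L : Type} [Field L] [Algebra ℂ L] (V : Submodule ℂ L) :
    IntermediateField ℂ L :=
  IntermediateField.adjoin ℂ {z : L | ∃ f ∈ V, ∃ g ∈ V, z = f / g}

/-- `V` has a basis of `v + 1` elements, divided into `c` nonempty groups, such that `φ i` is a
linear combination of the elements of the group `γ i`: `V` is the direct sum of `c` nonzero
subspaces, and `φ i` is in the subspace with the number `γ i`. -/
def Decomposition {L : Type} [Field L] [Algebra ℂ L] (v : ℕ) {q c : ℕ} (V : Submodule ℂ L)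
    (φ : Fin q → L) (γ : Fin q → Fin c) : Prop :=
  ∃ (x : Fin (v + 1) → L) (g : Fin (v + 1) → Fin c), LinearIndependent ℂ x ∧
    Submodule.span ℂ (Set.range x) = V ∧ Function.Surjective g ∧
    ∀ i, φ i ∈ Submodule.span ℂ (x '' {a | g a = γ i})

/-- There are `r` members `φ i` of which no two are proportional. -/
def Different {L : Type} [Field L] [Algebra ℂ L] (r : ℕ) {q : ℕ} (φ : Fin q → L) : Prop :=
  ∃ τ : Fin r → Fin q, ∀ i j, i ≠ j → ∀ t : ℂ, φ (τ i) ≠ t • φ (τ j)

/-- The functions `φ i` all have the same order at `Q`. -/
def Level {L : Type} [Field L] [Algebra ℂ L] {q : ℕ} (φ : Fin q → L) (Q : Place ℂ L) : Prop :=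
  ∀ i i', Q.ord (φ i) = Q.ord (φ i')

/-- The minimum of the orders of the `φ i` at `Q` is attained in all summands. -/
def Balanced {L : Type} [Field L] [Algebra ℂ L] {q c : ℕ} (φ : Fin q → L) (γ : Fin q → Fin c)
    (Q : Place ℂ L) : Prop :=
  ∃ a, (∀ i, a ≤ Q.ord (φ i)) ∧ ∀ j, ∃ i, γ i = j ∧ Q.ord (φ i) = a

/-- The place `Q` dominates the variety with function field `F`. -/
def Horizontal {L : Type} [Field L] [Algebra ℂ L] (F : IntermediateField ℂ L) (Q : Place ℂ L) :
    Prop :=
  ∀ f ∈ F, f ≠ 0 → Q.ord f = 0

/-- **Nonvanishing.** Let `(X, Δ)` be a projective log canonical pair of dimension `n` with function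
field `K` and a pseudo-effective (for instance nef) divisor `K_X + Δ`, and `Z → X` a finite cover
with function field `L`. Let `V` be a linear system of dimension `v` on `Z`, spanned by nonzero
members `φ i`, and let `c` be the largest number such that `V` is a direct sum of `c` nonzero
subspaces which together contain all `φ i`. Let `W` be the image of `V`, `d = v - k` its dimension,
and let `L` be generated by functions `t j` and elements which are algebraic over the function field
of `W`. Let `R = v + 3 - c`, or `R = v + 1` if `c = 1` and there are `v + 3` different members, and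
`2 s > R (k + 1) (k + 2)`. Assume for all prime divisors `P` of `X` which are not in the base locus of
`m (K_X + Δ + η A)` for all `m ≥ 1` and all small `η ≥ 0`, and all prime divisors `Q` of `Z` over `P`,
with ramification index `e`: if the `φ i` all have the same order at `Q`, then `e (1 - Δ P) ≤ 1`;
otherwise, there are two `φ i` in the same summand of `V` whose orders differ by at least
`s e (1 - Δ P)`, and, if `Δ P ≥ 1`, the minimum of the orders is attained in all summands; and if `Q`
dominates `W` and some `t j` has a zero or pole at `Q` then `Δ P ≥ 1`. Then some positive multiple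
`m (K_X + Δ)`, `m Δ` integral, has a nonzero section, and the Kodaira dimension and the numerical
dimension of `K_X + Δ` are equal to the same number `κ ≥ d`. -/
theorem result {K L : Type} [Field K] [Field L] [Algebra ℂ K] [Algebra ℂ L] [Algebra K L]
    [IsScalarTower ℂ K L] [FiniteDimensional K L] {N n v d k q c r R : ℕ} {y : Fin (N + 1) → K}
    (hy : NormalModel y) (hn : Algebra.trdeg ℂ K = n)
    {Δ : Place ℂ K → ℚ} (hΔ : Effective y Δ) (hLC : LogCanonical y n Δ)
    {A : Place ℂ K → ℚ} (hA : Effective y A) (hps : PseudoEffective y n Δ A)
    {V : Submodule ℂ L} {φ : Fin q → L} (hφ0 : ∀ i, φ i ≠ 0)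
    (hφ : Submodule.span ℂ (Set.range φ) = V) {γ : Fin q → Fin c} (hγ : Decomposition v V φ γ)
    (hc : ∀ γ' : Fin q → Fin (c + 1), ¬ Decomposition v V φ γ')
    (hd : Algebra.trdeg ℂ (quotientField V) = d) (hk : d + k = v)
    (hR : R + c = v + 3 ∨ (c = 1 ∧ Different (v + 3) φ ∧ R = v + 1))
    {s : ℝ} (hs : (R : ℝ) * ((k + 1) * (k + 2)) < 2 * s)
    {t : Fin r → L} (ht : ∀ j, t j ≠ 0)
    (hgen : IntermediateField.adjoin ℂ
      ({z : L | IsAlgebraic (quotientField V) z} ∪ Set.range t) = ⊤)
    (h : ∀ P, IsPrimeDivisor y P → ¬ Diminished y n Δ A P →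
      ∀ (Q : Place ℂ L) (e : ℕ), Over Q P e →
        (Level φ Q → (e : ℚ) * (1 - Δ P) ≤ 1) ∧
        (¬ Level φ Q → (∃ i i', γ i' = γ i ∧
          s * (e * (1 - Δ P)) ≤ ((Q.ord (φ i) - Q.ord (φ i') : ℤ) : ℝ)) ∧
          (1 ≤ Δ P → Balanced φ γ Q)) ∧
        (Horizontal (quotientField V) Q → (∃ j, Q.ord (t j) ≠ 0) → 1 ≤ Δ P)) :
    (∃ m : ℕ, 1 ≤ m ∧ Integral y (m • Δ) ∧ ∃ ω, IsSection y n m (m • Δ) ω ∧ ω ≠ 0) ∧
      ∃ κ : ℕ, d ≤ κ ∧ kodairaDim y n Δ = (κ : WithBot ℕ) ∧
        ∀ A', Effective y A' → Integral y A' → numericalDim y n Δ A' = (κ : EReal) := by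
  classical
  have hzero : Effective y (0 : Place ℂ K → ℚ) := ⟨fun _ _ => le_rfl, by simp⟩
  obtain ⟨κ, h1, h2, -⟩ := main7 (L := L) (Γ := 0) (R := R) hy hn hΔ hLC hzero hA
    (by rw [sub_zero]; exact hps) hφ0 hφ hγ hc hd hk hR hs
    (fun P hP _ h2 Q e hQ hv => ((h P hP h2 Q e hQ).2.1 fun hl => by
      obtain ⟨i, i', hi⟩ := hv
      exact hi (hl i i')).1)
    (fun P hP _ h2 h3 Q e hQ => by
      by_cases hl : Level φ Q
      · obtain ⟨x, g, hx, hxV, hg, hφx⟩ := hγ
        have hne : Nonempty (Fin q) := by
          by_contra hcon
          rw [not_nonempty_iff] at hcon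
          have h4 : V = ⊥ := by
            rw [← hφ, Set.range_eq_empty, Submodule.span_empty]
          have h5 : x 0 ∈ V := by
            rw [← hxV]
            exact Submodule.subset_span ⟨0, rfl⟩
          rw [h4, Submodule.mem_bot] at h5
          exact hx.ne_zero 0 h5
        obtain ⟨i0⟩ := hne
        refine ⟨Q.ord (φ i0), fun i => (hl i0 i).le, fun j => ?_⟩
        -- every summand contains some `φ i`
        by_contra hcon
        push Not at hcon
        have hnot : ∀ i, γ i ≠ j := fun i hi => hcon i hi (hl i i0)
        obtain ⟨a, ha⟩ := hg j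
        have h6 : ∀ i, φ i ∈ Submodule.span ℂ (x '' {b | g b ≠ j}) := fun i =>
          Submodule.span_mono (Set.image_mono fun b hb => by
            simp only [Set.mem_ofPred_eq] at hb ⊢
            rw [hb]
            exact hnot i) (hφx i)
        have h7 : x a ∈ Submodule.span ℂ (x '' {b | g b ≠ j}) := by
          have h8 : x a ∈ V := by
            rw [← hxV]
            exact Submodule.subset_span ⟨a, rfl⟩
          rw [← hφ] at h8
          exact (Submodule.span_le.2 (by rintro _ ⟨i, rfl⟩; exact h6 i)) h8
        have h9 := hx.notMem_span_image (s := {b | g b ≠ j}) (x := a) (by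
          simp only [Set.mem_ofPred_eq, not_not]
          exact ha)
        exact h9 h7
      · exact ((h P hP h2 Q e hQ).2.1 hl).2 h3)
    ht hgen
    (fun P hP _ h2 Q e hQ hv hj => (h P hP h2 Q e hQ).2.2 hv hj)
    fun P hP _ h2 Q e hQ => (h P hP h2 Q e hQ).1
  obtain ⟨h3, h4⟩ := h2 Δ (fun _ _ _ => rfl) (fun P _ hP => absurd rfl hP)
  refine ⟨?_, κ, h1, h3, h4⟩
  by_contra hcon
  push Not at hcon
  have h5 : kodairaDim y n Δ = ⊥ := by
    unfold kodairaDim
    rw [if_pos]
    intro m hm hi
    unfold h0
    have : {ω | IsSection y n m (m • Δ) ω} ⊆ {0} := fun ω hω => by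
      by_contra hne
      exact hne (hcon m hm hi ω hω)
    rw [Submodule.span_eq_bot.2 fun ω hω => this hω]
    exact finrank_bot ℂ _
  rw [h3] at h5
  exact WithBot.coe_ne_bot h5

end Pool.Agent.Results.MP_bc213e_ag.HighMultiplicityLogCanonical
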