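import Pool.Agent.W619.Y.LMain
import Pool.Agent.W619.TW.NVFin

/-!
# Nonvanishing for log canonical pairs on quotients of products of a variety and open curves

Let `Y` be a projective variety of dimension `d` (for instance a point), `C i`, `i < n`, smooth
projective curves, `Z` the product of `Y` and the curves, and `G` any finite group of birational
automorphisms of `Z` which permutes the curves, through `σ` (it need not act on `Y`, and the action
need not be diagonal or free). Let `B i` be finite sets of points of the quotients of the `C i` by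
their stabilizers, permuted by `G`; they may be empty. Let `(X, D)` be a log smooth projective pair,
`X` birational to `Z / G`, such that `D` is the reduced divisor over the points of the `B i`, that
is, `X \ D` is birational over the product of the open curves modulo `G`; it is log canonical, and
not klt if one of the `B i` is not empty.

The theorem.

(1) Assume `LogMixedNonneg`. If `K_X + D` is pseudo-effective (for instance nef), then `K_Y` is
pseudo-effective and none of the open curves `C i \ B i` is the projective or the affine line; if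
moreover `K_Y` is `ℚ`-effective then `K_X + D` is `ℚ`-effective: nonvanishing on `X` is reduced to
nonvanishing on `Y`.

(2) Assume `LogMixedPos` and let `κ (Y) = ν (Y) = a`. Then the following are equivalent: `K_X + D` is
pseudo-effective; `K_X + D` is `ℚ`-effective; none of the open curves is the projective or affine
line. In this case `κ (K_X + D) = ν (K_X + D) = a + f`, `f` the number of the open curves of log
general type.

(3) If `Y` is a point then nothing is assumed about `Y`: under `LogMixedNonneg` the divisor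
`K_X + D` is pseudo-effective if and only if it is `ℚ`-effective, if and only if none of the open
curves is the projective or affine line; under `LogMixedPos` moreover `κ (K_X + D) = ν (K_X + D) = f`
in this case.

`LogMixedNonneg` and `LogMixedPos` hold for instance if the fixed locus on the product of the curves
of each `g ≠ 1` in `G` is empty or of codimension at least `6` (at least `7`), or at least `2`
(at least `3`) if all `B i` are nonempty. The theorems `nvLM` and `abLM` of the library (without
part (3)) had not been handed in.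
-/

set_option autoImplicit false
set_option linter.overlappingInstances false

universe u

open FF IntermediateField Pool.Agent.W619.PQ Pool.Agent.W619.PL Pool.Agent.W619.TW
  Pool.Agent.W619.X Pool.Agent.W619.Y

namespace Pool.Agent.Results.MP_bc213e_ag.MixedOpenQuotients

section aux

variable {L : Type u} [Field L] [Algebra ℂ L]

theorem bot_of_trdeg {M : IntermediateField ℂ L} (hM : Algebra.trdeg ℂ M = (0 : ℕ)) (z : M) :
    ∃ c : ℂ, algebraMap ℂ M c = z := by
  have h1 : Algebra.IsAlgebraic ℂ M := by
    rw [← trdeg_eq_zero_iff]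
    exact_mod_cast hM
  have h2 : Algebra.IsIntegral ℂ M := h1.isIntegral
  exact (IsAlgClosed.algebraMap_bijective_of_isIntegral (k := ℂ) (K := M)).2 z

theorem point_kodTr (M : IntermediateField ℂ L) : KodTr ℂ M 0 0 := by
  refine ⟨1, le_rfl, fun _ _ => 1, fun l => ⟨fun A D => ?_, fun v hv hb D hD => ?_,
    fun v hv hb D hD => hb.elim⟩, default, fun l => one_ne_zero, ?_⟩
  · rw [Matrix.det_isEmpty, one_pow, one_mul]
  · refine Or.inr ⟨1, Finset.mem_singleton_self _, one_ne_zero, ?_⟩
    rw [Place.ord_one, mul_zero]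
  · rw [algebraicIndependent_empty_type_iff]
    exact (algebraMap ℂ M).injective

theorem point_numLe {M : IntermediateField ℂ L} (hM : Algebra.trdeg ℂ M = (0 : ℕ)) :
    NumLe ℂ M 0 (fun _ => False) 0 := by
  intro S
  refine ⟨1, fun m N hm h => ?_⟩
  obtain ⟨ω, hω, -⟩ := h
  choose c hc using fun i => bot_of_trdeg hM (ω i default)
  have h1 : LinearIndependent ℂ c := by
    rw [Fintype.linearIndependent_iff] at hω ⊢
    intro g hg
    refine hω g ?_
    funext D
    rw [Subsingleton.elim D default, Finset.sum_apply]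
    have h2 : ∀ i, (g i • ω i) default = algebraMap ℂ M (g i • c i) := by
      intro i
      rw [Pi.smul_apply, ← hc i, Algebra.smul_def, smul_eq_mul, map_mul]
    rw [Finset.sum_congr rfl fun i _ => h2 i, ← map_sum, hg, map_zero]
    rfl
  have h3 := h1.fintype_card_le_finrank
  rw [Fintype.card_fin, Module.finrank_self] at h3
  simpa using h3

theorem eff_of_kodTrB {K : Type u} [Field K] [Algebra ℂ K] {n h : ℕ} {Bd : Place ℂ K → Prop}
    (hk : KodTrB ℂ K n Bd h) : IsEff ℂ K n Bd := by
  obtain ⟨m, hm, ω, hω, D, hD, -⟩ := hk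
  exact ⟨m, hm, ω 0, hω 0, D, hD 0⟩

end aux

/-- Nonvanishing, and weak abundance, for the pairs `(X, D)` where `X \ D` is a quotient of the
product of a variety `Y` and open curves. -/
theorem result {L : Type u} [Field L] [Algebra ℂ L] (d n : ℕ)
    -- `L` is the function field of `Z`, the product of `Y` and the curves
    (hn : Algebra.trdeg ℂ L = (d + n : ℕ))
    (M : IntermediateField ℂ L) [Algebra.EssFiniteType ℂ M] (hM : Algebra.trdeg ℂ M = d)
    (F : Fin n → IntermediateField ℂ L) (hF : ∀ i, IsFF ℂ (F i))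
    (hsup : M ⊔ (⨆ i, F i) = ⊤)
    -- the group
    (G : Subgroup (L ≃ₐ[ℂ] L)) [Finite G] (σ : G →* Equiv.Perm (Fin n))
    (hσ : ∀ (g : G) i, ∀ z ∈ F i, (g : L ≃ₐ[ℂ] L) z ∈ F (σ g i))
    -- the boundary
    (B : ∀ i, Set (Place ℂ ↥(F i ⊓ fixedField (stb G σ i)))) (hB : ∀ i, (B i).Finite)
    (hinv : BdInv G σ F B) :
    (LogMixedNonneg G σ F B → IsPsef ℂ (fixedField G) (d + n) (BdQ G σ F B) →
      IsPsef ℂ M d (fun _ => False) ∧ (∀ i, ¬ IsNegative inf_le_left (B i)) ∧
        (IsEff ℂ M d (fun _ => False) → IsEff ℂ (fixedField G) (d + n) (BdQ G σ F B))) ∧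
    (LogMixedPos G σ F B → ∀ a, KodTr ℂ M d a → NumLe ℂ M d (fun _ => False) a →
      (IsPsef ℂ (fixedField G) (d + n) (BdQ G σ F B) ↔ ∀ i, ¬ IsNegative inf_le_left (B i)) ∧
      (IsEff ℂ (fixedField G) (d + n) (BdQ G σ F B) ↔ ∀ i, ¬ IsNegative inf_le_left (B i)) ∧
      ((∀ i, ¬ IsNegative inf_le_left (B i)) →
        KodGe ℂ (fixedField G) (d + n) (BdQ G σ F B)
          (a + {i | ¬ IsFlat inf_le_left (B i)}.ncard) ∧
        NumLe ℂ (fixedField G) (d + n) (BdQ G σ F B)
          (a + {i | ¬ IsFlat inf_le_left (B i)}.ncard))) ∧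
    (d = 0 →
      (LogMixedNonneg G σ F B →
        (IsPsef ℂ (fixedField G) (d + n) (BdQ G σ F B) ↔ ∀ i, ¬ IsNegative inf_le_left (B i)) ∧
        (IsEff ℂ (fixedField G) (d + n) (BdQ G σ F B) ↔
          ∀ i, ¬ IsNegative inf_le_left (B i))) ∧
      (LogMixedPos G σ F B → (∀ i, ¬ IsNegative inf_le_left (B i)) →
        KodGe ℂ (fixedField G) (d + n) (BdQ G σ F B) {i | ¬ IsFlat inf_le_left (B i)}.ncard ∧
        NumLe ℂ (fixedField G) (d + n) (BdQ G σ F B)
          {i | ¬ IsFlat inf_le_left (B i)}.ncard)) := by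
  have halg : Algebra.IsAlgebraic ↥(M ⊔ ⨆ i, F i) L := alg_of_top M F hsup
  have hnv : LogMixedNonneg G σ F B → IsEff ℂ M d (fun _ => False) →
      (IsPsef ℂ (fixedField G) (d + n) (BdQ G σ F B) ↔ ∀ i, ¬ IsNegative inf_le_left (B i)) ∧
      (IsEff ℂ (fixedField G) (d + n) (BdQ G σ F B) ↔
        ∀ i, ¬ IsNegative inf_le_left (B i)) := by
    intro h hY
    obtain ⟨h1, h2⟩ := nvLM d n hn M hM F halg G σ hσ B hB hinv h
    have h3 : IsPsef ℂ (fixedField G) (d + n) (BdQ G σ F B) →
        ∀ i, ¬ IsNegative inf_le_left (B i) := fun hp => (h2 hsup hp).2.1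
    exact ⟨⟨h3, fun hneg => psef_of_eff (h1 hY hneg)⟩,
      ⟨fun he => h3 (psef_of_eff he), fun hneg => h1 hY hneg⟩⟩
  refine ⟨fun h hp => ?_, fun h a ha hb => ?_, ?_⟩
  · exact (nvLM d n hn M hM F halg G σ hσ B hB hinv h).2 hsup hp
  · obtain ⟨h1, h2⟩ := abLM d n hn M hM F halg G σ hσ B hB hinv h
    obtain ⟨h3, -, h4⟩ := h2 hsup
    have h5 : IsPsef ℂ (fixedField G) (d + n) (BdQ G σ F B) →
        ∀ i, ¬ IsNegative inf_le_left (B i) := fun hp => (h4 hp).2
    have h6 : (∀ i, ¬ IsNegative inf_le_left (B i)) →
        IsEff ℂ (fixedField G) (d + n) (BdQ G σ F B) := fun hneg =>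
      eff_of_kodTrB (h1 hneg a ha).1
    exact ⟨⟨h5, fun hneg => psef_of_eff (h6 hneg)⟩, ⟨fun he => h5 (psef_of_eff he), h6⟩,
      fun hneg => ⟨(h1 hneg a ha).2, h3 hneg a hb⟩⟩
  · rintro rfl
    have hY : KodTr ℂ M 0 0 := point_kodTr M
    refine ⟨fun h => hnv h (eff_of_kodTrB (h := 0) ?_), fun h hneg => ?_⟩
    · exact hY
    · obtain ⟨h1, h2⟩ := abLM 0 n hn M hM F halg G σ hσ B hB hinv h
      have h3 := (h1 hneg 0 hY).2
      have h4 := (h2 hsup).1 hneg 0 (point_numLe hM)
      rw [Nat.zero_add] at h3 h4
      simp only [Nat.zero_add] at h3 h4 ⊢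
      exact ⟨h3, h4⟩

end Pool.Agent.Results.MP_bc213e_ag.MixedOpenQuotients
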