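import Pool.Agent.TH756.PN.TenM
import Pool.Agent.X325.KG

/-!
# Nonvanishing for pairs which are fibred over products of projective spaces

Let `(X, Δ)` be a projective pair of dimension `∑ i, n i + m` (`X` normal, `Δ` an effective
`ℚ`-divisor; for instance log canonical), and `X ⇢ ∏ i, ℙ ^ (n i)`, `i < r`, a dominant rational map,
with fibres of any dimension `m ≥ 0`. Let `ℱ` be the foliation on `X` given by the fibres; its
canonical divisor `K_ℱ` is defined by the relative `m`-forms (evaluated at vector fields which are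
tangent to the fibres and regular at the prime divisor of `X`; over a prime divisor of the base with
ramification index `e` this is the relative canonical divisor `K_{X/B}` minus `e - 1` times the prime
divisor). On the factors hyperplanes `ℓ i k = 0`, `k < q i`, are given, arbitrary arrangements
(general position is not assumed). The number `v i k` is the multiplicity of the hyperplane
`ℓ i k = 0` at a prime divisor `P` of `X`. Suppose that `Δ ≥ Δ₁ + Δ₂`, `Δ₁ ≥ 0`, and

* (the base) for each factor let `g i` be one of the functions `(max v i k) / (n i + 2)` (the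
  arrangement must not be reducible), `(max v i k) / (n i + 1)` (and does not consist of `n i + 2`
  hyperplanes in general position), or the (combinatorial) log discrepancy with respect to a log
  Calabi-Yau pair `(ℙ ^ (n i), ∑ w k H k)`. If not all `v i k` are zero at `P`, then
  `1 - Δ₁ P ≤ ∑ i, g i (v i)`, with strict inequality if the distinguished hyperplane `k0 i` of a
  factor `i ∈ I` has a positive multiplicity at `P`;
* (the fibres) a multiple `s (K_ℱ + Δ₂)` has sections `θ 0, ..., θ lam` whose quotients are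
  algebraically independent over the function field of the product (for `m = 0` this is the empty
  condition, with `Δ₂ = 0`, `lam = 0`).

Then nonvanishing holds for `(X, Δ)`: some positive multiple of `K_X + Δ` has a nonzero section, and
`κ(K_X + Δ) ≥ ∑ i ∈ I, n i + lam`. So the Kodaira dimension is at least the sum of the dimensions of
the factors for which the inequalities are strict and of the Kodaira dimension of the positive part
of the fibres, in the spirit of Iitaka's conjecture, although the base is a product of projective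
spaces.

The case of the generically finite maps (`m = 0`), with an upper bound for the numerical dimension,
is `MP_e23cd6_ag.ProjectiveProductPairs`. The proof uses the library `Pool.Agent.TH756.PN` of the
starting repository (`fibred_main`, which had not been handed in): products of the determinants of
logarithmic derivatives of the linear forms, with a weight on the bases of each arrangement, are
multiplied by the sections `θ`. The Kodaira dimension is the literal one
(`Pool.Agent.Y172.kodairaDim`), for which the bound `h⁰(m (K_X + Δ)) ≤ C m ^ dim X` is shown in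
`Pool.Agent.X325.KG`.

`X` is given by the homogeneous coordinates `y` of its generic point, with values in the function
field `K`; the prime divisors of `X` are places `P` of `K`, `P.ord` is the order along `P`.
-/

set_option autoImplicit false

open FF Module Pool.Agent.W602.Cov Pool.Agent.W602.GT Pool.Agent.TH152.AC
open Pool.Agent.Y172

namespace Pool.Agent.Results.MP_bc213e_ag.ProductFibredPairs

section bounds

variable {n q : ℕ}

/-- In suitable linear coordinates `X 0, ..., X n` each of the hyperplanes is one of `X j = 0` or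
`X 0 + ... + X n = 0`. The arrangements with this property which are not reducible are, up to
repetitions, the arrangements of `n + 2` hyperplanes in general position. -/
def Simplicial (ℓ : Fin q → Form n) : Prop :=
  ∃ X : Basis (Fin (n + 1)) ℂ (Form n), ∀ i,
    (∃ c : ℂ, ℓ i = c • ∑ j, X j) ∨ ∃ (j : Fin (n + 1)) (c : ℂ), ℓ i = c • X j

/-- `(ℙ ^ n, ∑ w k H k)` is a log Calabi-Yau pair with rational weights: `w` is a rational convex
combination of the vectors with entries `1` for the `n + 1` hyperplanes of a basis `B` (that is, of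
`n + 1` linearly independent ones) and `0` for all others. -/
def LogCalabiYau (ℓ : Fin q → Form n) (w : Fin q → ℚ) : Prop :=
  ∃ p : Bases ℓ → ℕ, 0 < ∑ B, p B ∧ ∀ k, (∑ B, (p B : ℚ)) * w k =
    ∑ B, (p B : ℚ) * ((Finset.univ.filter fun a => B.1 a = k).card : ℚ)

/-- The maximum of the sums of the `v k` over the bases, minus the sum of the `w k * v k`. This is the
log discrepancy of the pair `(ℙ ^ n, ∑ w k H k)` at the toric divisors over the projective space along
which the hyperplanes have the multiplicities `v k`, and a lower bound for it at all divisors with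
these multiplicities. -/
noncomputable def logDiscrepancy (ℓ : Fin q → Form n) (w : Fin q → ℚ) (v : Fin q → ℕ) : ℚ :=
  ((Finset.univ.sup fun B : Bases ℓ => ∑ a, v (B.1 a) : ℕ) : ℚ) - ∑ k, w k * v k

/-- The lower bounds for one arrangement. -/
inductive Bound (ℓ : Fin q → Form n) : ((Fin q → ℕ) → ℚ) → Prop
  | irreducible : ¬ Reducible ℓ →
      Bound ℓ fun v => ((Finset.univ.sup v : ℕ) : ℚ) / ((n + 2 : ℕ) : ℚ)
  | notSimplicial : ¬ Reducible ℓ → ¬ Simplicial ℓ →
      Bound ℓ fun v => ((Finset.univ.sup v : ℕ) : ℚ) / ((n + 1 : ℕ) : ℚ)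
  | logCalabiYau (w : Fin q → ℚ) : LogCalabiYau ℓ w → Bound ℓ (logDiscrepancy ℓ w)

end bounds

/-- The value of a linear form at a vector over `K`. -/
noncomputable def form {n : ℕ} {K : Type} [Field K] [Algebra ℂ K] (φ : Form n)
    (x : Fin (n + 1) → K) : K := ∑ j, algebraMap ℂ K (φ (Pi.single j 1)) * x j

section divisors

variable {r : ℕ} {n q : Fin r → ℕ} {K : Type} [Field K] [Algebra ℂ K]

/-- The affine coordinates of the product of the projective spaces. -/
noncomputable def affine (x : ∀ i, Fin (n i + 1) → K) (b : (i : Fin r) × Fin (n i)) : K :=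
  x b.1 b.2.succ / x b.1 0

/-- The field of the rational functions on the product of the projective spaces, as a subfield of
the function field of `X`. -/
noncomputable abbrev BaseField (x : ∀ i, Fin (n i + 1) → K) : IntermediateField ℂ K :=
  IntermediateField.adjoin ℂ (Set.range (affine x))

/-- The hyperplanes `ℓ i k` have the multiplicities `v i k` at `P`: their orders are `a i + v i k`,
where `a i` is the minimum of the orders of all linear forms on the `i`-th factor. -/
def Multiplicities (ℓ : ∀ i, Fin (q i) → Form (n i)) (x : ∀ i, Fin (n i + 1) → K)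
    (P : Place ℂ K) (a : Fin r → ℤ) (v : ∀ i, Fin (q i) → ℕ) : Prop :=
  (∀ i (φ : Form (n i)), form φ (x i) = 0 ∨ a i ≤ P.ord (form φ (x i))) ∧
    (∀ i, ∃ φ : Form (n i), form φ (x i) ≠ 0 ∧ P.ord (form φ (x i)) = a i) ∧
    ∀ i k, P.ord (form (ℓ i k) (x i)) = a i + v i k

/-- `θ` is a section of `s (K_ℱ + D)`: it is an `s`-fold canonical form on the generic fibre of the
map to the product of the projective spaces (a form of degree `s` in the determinants of `m` vector
fields which are tangent to the fibres), and at all prime divisors `P` of `X` its values at the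
vector fields which are tangent to the fibres and regular at `P` have orders at least `- s D_P`. -/
def IsFoliatedSection {M m : ℕ} (y : Fin (M + 1) → K) (x : ∀ i, Fin (n i + 1) → K) (s : ℕ)
    (D : Place ℂ K → ℚ) (θ : (Fin m → Derivation (BaseField x) K K) → K) : Prop :=
  IsPluri s θ ∧ ∀ P, IsPrimeDivisor y P → ∀ G : Fin m → Derivation (BaseField x) K K,
    (∀ i f, P.Reg f → P.Reg (G i f)) → θ G = 0 ∨ -(s * D P) ≤ (P.ord (θ G) : ℚ)

end divisors

/-- `(X, Δ)` is a projective pair of dimension `N`: `X` is normal, with generic point `y`, and `Δ` is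
an effective `ℚ`-divisor. -/
def IsPair {K : Type} [Field K] [Algebra ℂ K] {M : ℕ} (y : Fin (M + 1) → K) (N : ℕ)
    (Δ : Place ℂ K → ℚ) : Prop :=
  NormalModel y ∧ Algebra.trdeg ℂ K = N ∧ Effective y Δ

/-- **Nonvanishing.** Let `(X, Δ)` be a projective pair of dimension `∑ i, n i + m` and
`X ⇢ ∏ i, ℙ ^ (n i)` a dominant rational map, let `Δ ≥ Δ₁ + Δ₂` with `Δ₁ ≥ 0`, let `g i` be lower
bounds for the arrangements `ℓ i` and let `I` be a set of factors. Suppose that at the prime divisors
`P` of `X` at which some multiplicity is positive `1 - Δ₁ P ≤ ∑ i, g i (v i)`, and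
`1 - Δ₁ P < ∑ i, g i (v i)` if the multiplicity of the distinguished hyperplane of a factor in `I` is
positive, and that `s (K_ℱ + Δ₂)` has sections `θ 0, ..., θ lam`, `s ≥ 1`, whose quotients are
algebraically independent over the function field of the product. Then some positive multiple of
`K_X + Δ` has a nonzero section, and `κ(K_X + Δ) ≥ ∑ i ∈ I, n i + lam`. -/
theorem result (r m : ℕ) (n q : Fin r → ℕ) (hn : ∀ i, 1 ≤ n i)
    (ℓ : ∀ i, Fin (q i) → Form (n i)) (hℓ : ∀ i k, ℓ i k ≠ 0)
    (g : ∀ i, (Fin (q i) → ℕ) → ℚ) (hg : ∀ i, Bound (ℓ i) (g i))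
    (I : Finset (Fin r)) (k0 : ∀ i, Fin (q i))
    (K : Type) [Field K] [Algebra ℂ K] (M : ℕ) (y : Fin (M + 1) → K) (Δ Δ₁ Δ₂ : Place ℂ K → ℚ)
    (hy : IsPair y ((∑ i, n i) + m) Δ)
    (hΔ : ∀ P, IsPrimeDivisor y P → 0 ≤ Δ₁ P ∧ Δ₁ P + Δ₂ P ≤ Δ P)
    (x : ∀ i, Fin (n i + 1) → K) (hx : ∀ i, x i 0 ≠ 0)
    (hdom : AlgebraicIndependent ℂ (affine x))
    (hbase : ∀ P, IsPrimeDivisor y P → ∀ (a : Fin r → ℤ) (v : ∀ i, Fin (q i) → ℕ),
      Multiplicities ℓ x P a v → (∃ i, v i ≠ 0) →
      1 - Δ₁ P ≤ ∑ i, g i (v i) ∧ ((∃ i ∈ I, v i (k0 i) ≠ 0) → 1 - Δ₁ P < ∑ i, g i (v i)))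
    (s lam : ℕ) (hs : 1 ≤ s) (θ : Fin (lam + 1) → (Fin m → Derivation (BaseField x) K K) → K)
    (hθ : ∀ b, IsFoliatedSection y x s Δ₂ (θ b))
    (hfib : ∃ G, θ 0 G ≠ 0 ∧
      AlgebraicIndependent (BaseField x) (fun i : Fin lam => θ i.succ G / θ 0 G)) :
    (∃ m₀ : ℕ, 1 ≤ m₀ ∧ Integral y (m₀ • Δ) ∧
      ∃ ω, IsSection y ((∑ i, n i) + m) m₀ (m₀ • Δ) ω ∧ ω ≠ 0) ∧
    (((∑ i ∈ I, n i) + lam : ℕ) : WithBot ℕ) ≤ kodairaDim y ((∑ i, n i) + m) Δ := by
  have hwtd : ∀ i, Pool.Agent.TH756.PN.Wtd (ℓ i) (g i) := by
    intro i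
    obtain ⟨G, hG⟩ : ∃ G, G = g i := ⟨_, rfl⟩
    have h1 := hg i
    rw [← hG] at h1 ⊢
    cases h1 with
    | irreducible h2 =>
      exact Pool.Agent.TH756.PN.wtd_slack (by omega)
        (Pool.Agent.TH756.PR.slack_of_bnd (hn i) (hℓ i) h2 (Or.inl rfl))
        (Pool.Agent.W392.CG.span_top (hn i) (ℓ i) h2)
    | notSimplicial h2 h3 =>
      exact Pool.Agent.TH756.PN.wtd_slack (by omega)
        (Pool.Agent.TH756.PR.slack_of_bnd (hn i) (hℓ i) h2 (Or.inr ⟨rfl, Or.inr h3⟩))
        (Pool.Agent.W392.CG.span_top (hn i) (ℓ i) h2)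
    | logCalabiYau w h2 => exact Pool.Agent.TH756.PN.BasePt.wtd h2
  obtain ⟨T, hT, ω, hω, D, hD, hind⟩ := Pool.Agent.TH756.PN.fibred_main hy.2.1 hℓ g hwtd hx hdom
    {P | IsPrimeDivisor y P} (fun f hf => finite_ord hy.1 hf) (fun P => (Δ₁ P : ℝ))
    (fun P => (Δ₂ P : ℝ)) (fun P => (Δ P : ℝ))
    (fun P hP => by exact_mod_cast (hΔ P hP).1) (fun P hP => by exact_mod_cast (hΔ P hP).2) I k0
    (fun P hP _ a v hv h0 => by
      obtain ⟨h1, h2⟩ := hbase P hP a v hv h0
      refine ⟨?_, fun h => ?_⟩
      · exact_mod_cast h1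
      · exact_mod_cast h2 h)
    hs (fun b => (hθ b).1)
    (fun P hP _ G hG b => by
      rcases (hθ b).2 P hP G hG with h | h
      · exact Or.inl h
      · right
        have h3 := (Rat.cast_le (K := ℝ)).2 h
        push_cast at h3
        exact h3) hfib
  have hsec : ∀ b, IsSection y ((∑ i, n i) + m) T (T • Δ) (ω b) := by
    intro b
    refine ⟨(hω b).1, fun P hP G hG => ?_⟩
    rcases (hω b).2 P hP (hP.divisorial hy.1 hy.2.1) G hG with h | h
    · exact Or.inl h
    · right
      rw [Pi.smul_apply, nsmul_eq_mul]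
      have h7 : ((-(T * Δ P) : ℚ) : ℝ) ≤ (((P.ord (ω b G) : ℤ) : ℚ) : ℝ) := by
        push_cast
        exact h
      exact_mod_cast h7
  refine ⟨Pool.Agent.X325.KG.integral_section hy.1 hy.2.2 hT (hsec 0) (fun h => hD ?_),
    Pool.Agent.X325.KG.kod_ge hy.1 hy.2.1 hy.2.2 hT hsec hD hind⟩
  rw [h]
  rfl

end Pool.Agent.Results.MP_bc213e_ag.ProductFibredPairs
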